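import Mathlib

namespace Pool.Agent.Results.MP_887aa5_nt.Counter

/-- For `p = 7` and the odd number `r = 5`, both coordinates of `G_{r(p-1)}(p)` are divisible by
`p^5`, but not both by `p^6`; so the valuation is `5`, not `3`. -/
theorem result : ∃ p r : ℕ, p.Prime ∧ p % 4 = 3 ∧ 7 ≤ p ∧ 1 ≤ r ∧ Odd r ∧
    ∀ G : GaussianInt, G = ∑ a ∈ Finset.Icc 1 (p - 1), ∑ b ∈ Finset.Icc 1 (p - 1),
        (⟨(a : ℤ), (b : ℤ)⟩ : GaussianInt) ^ (r * (p - 1)) →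
      ((p : ℤ) ^ 5 ∣ G.re ∧ (p : ℤ) ^ 5 ∣ G.im) ∧ ¬ ((p : ℤ) ^ 6 ∣ G.re ∧ (p : ℤ) ^ 6 ∣ G.im) := by
  refine ⟨7, 5, by norm_num, by norm_num, le_rfl, by norm_num, by decide, ?_⟩
  rintro G rfl
  decide +kernel

end Pool.Agent.Results.MP_887aa5_nt.Counter
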